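import Mathlib

/-!
# A regular (1,2)-realizable graph that is not vertex-transitive (MP_824d98_co)

`G` is the Taylor double cover attached to the Latin square graph `L_3(6)` of the cyclic group of
order six; it is a Cayley graph of `Z_6 x Z_6 x Z_2`.
-/

namespace Pool.Agent.Results.MP_824d98_co.NotTransitive

open SimpleGraph

/-- the subgraph of `G` induced by the vertices at distance exactly `k` from `x` -/
abbrev nbhd {V : Type} (k : ℕ) (x : V) (G : SimpleGraph V) : SimpleGraph {y | G.dist x y = k} :=
  G.induce {y | G.dist x y = k}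

/-- `(1,2)`-realizability: some finite graph `G` has all its first and second neighbourhoods
isomorphic to `H` -/
def IsRealizable {W : Type} (H : SimpleGraph W) : Prop :=
  ∃ (U : Type) (_ : Finite U) (G : SimpleGraph U),
    ∀ x, Nonempty (nbhd 1 x G ≃g H) ∧ Nonempty (nbhd 2 x G ≃g H)

/-- all vertices have the same degree -/
def IsReg {W : Type} (H : SimpleGraph W) : Prop := ∃ d : ℕ, ∀ v, (H.neighborSet v).ncard = d

/-- the automorphism group is transitive on the vertices -/
def IsVertexTransitive {W : Type} (H : SimpleGraph W) : Prop := ∀ u v : W, ∃ φ : H ≃g H, φ u = v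

abbrev V : Type := Fin 6 × Fin 6 × Fin 2

/-- the connection set -/
def cn (d : V) : Bool :=
  Nat.testBit 3142474924844376560980 (d.1.val * 12 + d.2.1.val * 2 + d.2.2.val)

lemma cn_neg : ∀ d : V, cn (-d) = cn d := by decide +kernel

lemma cn_zero : cn 0 = false := by decide +kernel

/-- the Taylor graph -/
def G : SimpleGraph V where
  Adj x y := cn (y - x) = true
  symm := ⟨fun x y h => by rw [← neg_sub, cn_neg]; exact h⟩
  loopless := ⟨fun x h => by rw [sub_self, cn_zero] at h; exact absurd h (by decide)⟩

instance : DecidableRel G.Adj := fun x y => inferInstanceAs (Decidable (cn (y - x) = true))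

/-- the antipode of zero -/
def τ : V := (0, 0, 1)

lemma two_steps : ∀ d : V, (0 ≠ d ∧ ¬ cn d = true ∧ ∃ z : V, cn z = true ∧ cn (d - z) = true) ↔
    cn (d - τ) = true := by decide +kernel

lemma dist_eq_two {U : Type} (Γ : SimpleGraph U) (x y : U) :
    Γ.dist x y = 2 ↔ x ≠ y ∧ ¬ Γ.Adj x y ∧ ∃ z, Γ.Adj x z ∧ Γ.Adj z y := by
  constructor
  · intro h
    refine ⟨?_, ?_, ?_⟩
    · rintro rfl
      simp at h
    · intro h'
      rw [← dist_eq_one_iff_adj] at h'
      omega
    · have hr : Γ.Reachable x y := by
        by_contra hcon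
        rw [dist_eq_zero_of_not_reachable hcon] at h
        omega
      obtain ⟨p, hp⟩ := hr.exists_walk_length_eq_dist
      rw [h] at hp
      cases p with
      | nil => simp at hp
      | cons h1 q =>
        cases q with
        | nil => simp at hp
        | cons h2 r =>
          cases r with
          | nil => exact ⟨_, h1, h2⟩
          | cons h3 s => simp at hp
  · rintro ⟨h1, h2, z, h3, h4⟩
    have hr : Γ.Reachable x y := (h3.reachable).trans h4.reachable
    have h5 : Γ.dist x y ≤ 2 := dist_le (Walk.cons h3 (Walk.cons h4 Walk.nil))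
    have h6 : Γ.dist x y ≠ 0 := by
      rw [Ne, hr.dist_eq_zero_iff]
      exact h1
    have h7 : Γ.dist x y ≠ 1 := by
      rw [Ne, dist_eq_one_iff_adj]
      exact h2
    omega

lemma adj_iff (x y : V) : G.Adj x y ↔ cn (y - x) = true := Iff.rfl

lemma dist_two (x y : V) : G.dist x y = 2 ↔ cn (y - x - τ) = true := by
  rw [dist_eq_two, ← two_steps (y - x)]
  simp only [adj_iff]
  constructor
  · rintro ⟨h1, h2, z, h3, h4⟩
    refine ⟨fun h => h1 ?_, h2, z - x, h3, ?_⟩
    · exact (sub_eq_zero.1 h.symm).symm
    · rw [show y - x - (z - x) = y - z by abel]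
      exact h4
  · rintro ⟨h1, h2, z, h3, h4⟩
    refine ⟨fun h => h1 ?_, h2, z + x, ?_, ?_⟩
    · rw [h, sub_self]
    · rw [add_sub_cancel_right]
      exact h3
    · rw [show y - (z + x) = y - x - z by abel]
      exact h4

/-- the first neighbourhood of zero -/
abbrev H : SimpleGraph {y : V | cn y = true} := G.induce {y : V | cn y = true}

/-- translation identifies the neighbourhoods -/
def transIso (t : V) (S : Set V) (hS : ∀ y, y ∈ S ↔ cn (y - t) = true) : G.induce S ≃g H where
  toFun y := ⟨y.1 - t, (hS y.1).1 y.2⟩
  invFun y := ⟨y.1 + t, (hS _).2 (by rw [add_sub_cancel_right]; exact y.2)⟩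
  left_inv y := by
    ext1
    simp
  right_inv y := by
    ext1
    simp
  map_rel_iff' := by
    intro a b
    simp only [Equiv.coe_fn_mk, comap_adj, Function.Embedding.subtype_apply, adj_iff,
      sub_sub_sub_cancel_right]

/-- the first and second neighbourhoods of all vertices are isomorphic to `H` -/
lemma all_nbhd (x : V) : Nonempty (G.induce {y | G.dist x y = 1} ≃g H) ∧
    Nonempty (G.induce {y | G.dist x y = 2} ≃g H) := by
  refine ⟨⟨transIso x _ ?_⟩, ⟨transIso (x + τ) _ ?_⟩⟩
  · intro y
    rw [Set.mem_ofPred_eq, dist_eq_one_iff_adj, adj_iff]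
  · intro y
    rw [Set.mem_ofPred_eq, dist_two]
    rw [show y - x - τ = y - (x + τ) by abel]

lemma deg18 : ∀ y : V, cn y = true →
    (Finset.univ.filter fun z : V => cn z = true ∧ cn (z - y) = true).card = 18 := by
  decide +kernel

/-- one level of the clique search -/
def srk (f : List V → Bool) : List V → Bool
  | [] => false
  | a :: l => f (l.filter fun z => cn (z - a)) || srk f l

/-- search for a `k`-clique inside a list -/
def sr : ℕ → List V → Bool
  | 0 => fun _ => true
  | k + 1 => srk (sr k)

lemma sr_complete : ∀ (k : ℕ) (l : List V) (K : Finset V), (∀ z ∈ K, z ∈ l) → K.card = k →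
    (∀ x ∈ K, ∀ y ∈ K, x ≠ y → cn (y - x) = true) → sr k l = true := by
  classical
  intro k
  induction k with
  | zero =>
    intro l K _ _ _
    rfl
  | succ k ih =>
    intro l
    induction l with
    | nil =>
      intro K hK hk _
      exfalso
      have : K = ∅ := by
        rw [Finset.eq_empty_iff_forall_notMem]
        intro z hz
        simpa using hK z hz
      rw [this] at hk
      simp at hk
    | cons a l ihl =>
      intro K hK hk hcl
      rw [sr, srk, Bool.or_eq_true]
      by_cases ha : a ∈ K
      · left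
        refine ih _ (K.erase a) ?_ ?_ ?_
        · intro z hz
          rw [Finset.mem_erase] at hz
          rw [List.mem_filter]
          refine ⟨?_, hcl a ha z hz.2 hz.1.symm⟩
          have := hK z hz.2
          rw [List.mem_cons] at this
          rcases this with h' | h'
          · exact absurd h' hz.1
          · exact h'
        · rw [Finset.card_erase_of_mem ha, hk]
          rfl
        · intro x hx y hy hne
          exact hcl x (Finset.mem_of_mem_erase hx) y (Finset.mem_of_mem_erase hy) hne
      · right
        refine ihl K ?_ hk hcl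
        intro z hz
        have := hK z hz
        rw [List.mem_cons] at this
        rcases this with h' | h'
        · rw [h'] at hz
          exact absurd hz ha
        · exact h'

/-- all vertices, as a list -/
def allV : List V := (List.finRange 6).flatMap fun a => (List.finRange 6).flatMap fun b =>
  (List.finRange 2).map fun c => (a, b, c)

lemma mem_allV : ∀ v : V, v ∈ allV := by
  intro v
  unfold allV
  rw [List.mem_flatMap]
  refine ⟨v.1, List.mem_finRange _, ?_⟩
  rw [List.mem_flatMap]
  refine ⟨v.2.1, List.mem_finRange _, ?_⟩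
  rw [List.mem_map]
  exact ⟨v.2.2, List.mem_finRange _, rfl⟩

/-- no `6`-clique of `H` contains `(0,1,0)` -/
lemma no_clique : sr 5 (allV.filter fun z => cn z && cn (z - (0, 1, 0))) = false := by
  decide +kernel

/-- a `6`-clique of `H` containing `(0,3,0)` -/
def K6 : Finset V := {(0, 3, 0), (3, 0, 0), (3, 3, 0), (1, 1, 1), (1, 4, 1), (4, 1, 1)}

lemma K6_card : K6.card = 6 := by decide +kernel

lemma K6_clique : ∀ x ∈ K6, cn x = true ∧ ∀ y ∈ K6, x ≠ y → cn (y - x) = true := by
  decide +kernel

lemma cn030 : cn (0, 3, 0) = true := by decide +kernel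

lemma cn010 : cn (0, 1, 0) = true := by decide +kernel

lemma H_not_transitive : ¬ IsVertexTransitive H := by
  classical
  intro hT
  obtain ⟨φ, hφ⟩ := hT ⟨(0, 3, 0), cn030⟩ ⟨(0, 1, 0), cn010⟩
  -- the image of the clique, without the base vertex
  set f : V → V := fun x => if h : cn x = true then (φ ⟨x, h⟩).1 else 0 with hf
  have hfv : ∀ x (h : cn x = true), f x = (φ ⟨x, h⟩).1 := by
    intro x h
    rw [hf]
    simp only [dif_pos h]
  have hfcn : ∀ x (h : cn x = true), cn (f x) = true := by
    intro x h
    rw [hfv x h]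
    exact (φ ⟨x, h⟩).2
  have hfadj : ∀ x (h : cn x = true) y (h' : cn y = true), cn (y - x) = true →
      cn (f y - f x) = true := by
    intro x h y h' hxy
    rw [hfv x h, hfv y h']
    have h1 : H.Adj ⟨x, h⟩ ⟨y, h'⟩ := hxy
    have h2 := φ.map_rel_iff.2 h1
    exact h2
  have hf0 : f (0, 3, 0) = (0, 1, 0) := by
    rw [hfv _ cn030, hφ]
  have hfinj : ∀ x ∈ K6, ∀ y ∈ K6, f x = f y → x = y := by
    intro x hx y hy hxy
    rw [hfv x (K6_clique x hx).1, hfv y (K6_clique y hy).1] at hxy
    have h1 := φ.injective (Subtype.ext hxy)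
    exact congrArg Subtype.val h1
  have h030 : ((0, 3, 0) : V) ∈ K6 := by decide
  have hcl : ∀ x ∈ K6, ∀ y ∈ K6, x ≠ y → cn (f y - f x) = true := fun x hx y hy hne =>
    hfadj x (K6_clique x hx).1 y (K6_clique y hy).1 ((K6_clique x hx).2 y hy hne)
  have := sr_complete 5 (allV.filter fun z => cn z && cn (z - (0, 1, 0)))
    ((K6.erase (0, 3, 0)).image f) (by
      intro z hz
      rw [Finset.mem_image] at hz
      obtain ⟨x, hx, rfl⟩ := hz
      rw [Finset.mem_erase] at hx
      rw [List.mem_filter]
      refine ⟨mem_allV _, ?_⟩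
      rw [Bool.and_eq_true]
      refine ⟨hfcn x (K6_clique x hx.2).1, ?_⟩
      rw [← hf0]
      exact hcl _ h030 x hx.2 hx.1.symm) (by
      rw [Finset.card_image_of_injOn, Finset.card_erase_of_mem h030, K6_card]
      intro x hx y hy hxy
      exact hfinj x (Finset.mem_of_mem_erase hx) y (Finset.mem_of_mem_erase hy) hxy) (by
      intro x hx y hy hne
      rw [Finset.mem_image] at hx hy
      obtain ⟨a, ha, rfl⟩ := hx
      obtain ⟨b, hb, rfl⟩ := hy
      exact hcl a (Finset.mem_of_mem_erase ha) b (Finset.mem_of_mem_erase hb)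
        (fun h => hne (by rw [h])))
  rw [no_clique] at this
  exact absurd this (by decide)

lemma H_regular : IsReg H := by
  classical
  refine ⟨18, fun v => ?_⟩
  have h1 := deg18 v.1 v.2
  have h2 : (H.neighborSet v).ncard = (Subtype.val '' H.neighborSet v).ncard :=
    (Set.ncard_image_of_injective _ Subtype.val_injective).symm
  have h3 : Subtype.val '' H.neighborSet v =
      ((Finset.univ.filter fun z : V => cn z = true ∧ cn (z - v.1) = true : Finset V) : Set V) := by
    ext z
    simp only [Set.mem_image, mem_neighborSet, Finset.coe_filter, Finset.mem_univ, true_and,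
      Set.mem_ofPred_eq]
    constructor
    · rintro ⟨w, hw, rfl⟩
      exact ⟨w.2, hw⟩
    · rintro ⟨h, h'⟩
      exact ⟨⟨z, h⟩, h', rfl⟩
  rw [h2, h3, Set.ncard_coe_finset, h1]

/-- **Answer: yes.**  There is a regular `(1,2)`-realizable graph which is not vertex-transitive. -/
theorem result : ∃ (W : Type) (_ : Finite W) (H : SimpleGraph W), IsReg H ∧ IsRealizable H ∧
    ¬ IsVertexTransitive H :=
  ⟨_, inferInstance, H, H_regular, ⟨V, inferInstance, G, all_nbhd⟩, H_not_transitive⟩

end Pool.Agent.Results.MP_824d98_co.NotTransitive
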